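import Pool.Agent.U463.HD.Geo

/-!
# Blow-ups of point sets keep many halving lines when few points are deleted
-/

set_option autoImplicit false

namespace Pool.Agent.U463.HD

open Finset Pool.Agent.W296.HL

open Pool.Agent.Y429.HalvFew (shr shr_inj exists_shear)

/-! ### lines and pairs -/

open scoped Classical in
lemma bis_of_hv {R : Finset (ℝ × ℝ)} {p q : ℝ × ℝ} (hp : p ∈ R) (hq : q ∈ R) (h : Hv R p q) :
    IsBisector R {x | cr p q x = 0} := by
  refine ⟨-(q.2 - p.2), q.1 - p.1, -(q.2 - p.2) * p.1 + (q.1 - p.1) * p.2, ?_, ?_, ?_, ?_, ?_⟩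
  · by_contra hcon
    push Not at hcon
    apply h.1
    exact Prod.ext (by linarith [hcon.2]) (by linarith [hcon.1])
  · ext x
    simp only [Line, Set.mem_ofPred_eq]
    unfold cr
    constructor
    · intro h; linarith
    · intro h; linarith
  · refine ⟨p, hp, q, hq, h.1, ?_, ?_⟩
    · simp only [Set.mem_ofPred_eq]; unfold cr; ring
    · simp only [Set.mem_ofPred_eq]; unfold cr; ring
  · rw [← h.2.2]
    congr 1
    ext x
    simp only [mem_filter, and_congr_right_iff]
    intro _
    unfold cr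
    constructor
    · intro h; linarith
    · intro h; linarith
  · rw [← h.2.1]
    congr 1
    ext x
    simp only [mem_filter, and_congr_right_iff]
    intro _
    unfold cr
    constructor
    · intro h; linarith
    · intro h; linarith

/-- ordered halving pairs give different lines -/
lemma pairs_le {R : Finset (ℝ × ℝ)} (hR : Gen R) (g : ℝ × ℝ → ℝ)
    (Z : Finset ((ℝ × ℝ) × (ℝ × ℝ)))
    (hZ : ∀ z ∈ Z, z.1 ∈ R ∧ z.2 ∈ R ∧ Hv R z.1 z.2 ∧ g z.1 < g z.2) :
    #Z ≤ {L | IsBisector R L}.ncard := by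
  classical
  rw [← Set.ncard_coe_finset]
  refine Set.ncard_le_ncard_of_injOn (fun z => {x | cr z.1 z.2 x = 0}) ?_ ?_ (bis_finite R)
  · intro z hz
    obtain ⟨h1, h2, h3, -⟩ := hZ z hz
    exact bis_of_hv h1 h2 h3
  · intro z hz w hw h
    obtain ⟨h1, h2, h3, h4⟩ := hZ z hz
    obtain ⟨h1', h2', h3', h4'⟩ := hZ w hw
    simp only at h
    have on1 : cr z.1 z.2 w.1 = 0 := by
      have : w.1 ∈ {x | cr w.1 w.2 x = 0} := by
        simp only [Set.mem_ofPred_eq]; unfold cr; ring
      rw [← h] at this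
      exact this
    have on2 : cr z.1 z.2 w.2 = 0 := by
      have : w.2 ∈ {x | cr w.1 w.2 x = 0} := by
        simp only [Set.mem_ofPred_eq]; unfold cr; ring
      rw [← h] at this
      exact this
    have c1 : w.1 = z.1 ∨ w.1 = z.2 := by
      by_contra hcon
      push Not at hcon
      exact hR z.1 h1 z.2 h2 w.1 h1' h3.1 (Ne.symm hcon.1) (Ne.symm hcon.2) on1
    have c2 : w.2 = z.1 ∨ w.2 = z.2 := by
      by_contra hcon
      push Not at hcon
      exact hR z.1 h1 z.2 h2 w.2 h2' h3.1 (Ne.symm hcon.1) (Ne.symm hcon.2) on2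
    rcases c1 with c1 | c1 <;> rcases c2 with c2 | c2
    · exact absurd (c1.trans c2.symm) h3'.1
    · exact Prod.ext c1.symm c2.symm
    · rw [c1, c2] at h4'
      exact absurd h4 (not_lt.mpr h4'.le)
    · exact absurd (c1.trans c2.symm) h3'.1

/-! ### ranks -/

lemma rank_surj (S : Finset ℕ) {α : ℕ} (h : α < #S) : ∃ i ∈ S, #{k ∈ S | k < i} = α := by
  classical
  have hlt : ∀ i ∈ S, ∀ j ∈ S, i < j → #{k ∈ S | k < i} < #{k ∈ S | k < j} := by
    intro i hi j _ hij
    apply card_lt_card
    rw [ssubset_iff_of_subset]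
    · exact ⟨i, mem_filter.mpr ⟨hi, hij⟩, fun h2 => lt_irrefl _ (mem_filter.mp h2).2⟩
    · intro r hr
      rw [mem_filter] at hr ⊢
      exact ⟨hr.1, hr.2.trans hij⟩
  have hinj : Set.InjOn (fun i => #{k ∈ S | k < i}) S := by
    intro i hi j hj h
    simp only at h
    rcases lt_trichotomy i j with h1 | h1 | h1
    · exact absurd h (hlt i hi j hj h1).ne
    · exact h1
    · exact absurd h (hlt j hj i hi h1).ne'
  have himg : S.image (fun i => #{k ∈ S | k < i}) = range #S := by
    apply eq_of_subset_of_card_le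
    · intro k hk
      obtain ⟨p, hp, rfl⟩ := mem_image.mp hk
      rw [mem_range]
      apply card_lt_card
      rw [ssubset_iff_of_subset (filter_subset _ _)]
      exact ⟨p, hp, fun h2 => lt_irrefl _ (mem_filter.mp h2).2⟩
    · rw [card_range, card_image_of_injOn hinj]
  have h2 : α ∈ S.image (fun i => #{k ∈ S | k < i}) := by rw [himg, mem_range]; exact h
  obtain ⟨i, hi, h3⟩ := mem_image.mp h2
  exact ⟨i, hi, h3⟩

lemma rank_pairs (S T : Finset ℕ) {J m : ℕ} (h1 : m ≤ #S) (h2 : m ≤ #T) (h3 : m ≤ J + 1)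
    (h4 : m + J + 1 ≤ #S + #T) :
    m ≤ #{z ∈ S ×ˢ T | #{k ∈ S | k < z.1} + #{k ∈ T | k < z.2} = J} := by
  classical
  have hS : ∀ α : ℕ, ∃ i, α < #S → i ∈ S ∧ #{k ∈ S | k < i} = α := by
    intro α
    by_cases h : α < #S
    · obtain ⟨i, h5, h6⟩ := rank_surj S h
      exact ⟨i, fun _ => ⟨h5, h6⟩⟩
    · exact ⟨0, fun h' => absurd h' h⟩
  have hT : ∀ α : ℕ, ∃ i, α < #T → i ∈ T ∧ #{k ∈ T | k < i} = α := by
    intro α
    by_cases h : α < #T
    · obtain ⟨i, h5, h6⟩ := rank_surj T h
      exact ⟨i, fun _ => ⟨h5, h6⟩⟩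
    · exact ⟨0, fun h' => absurd h' h⟩
  choose a ha using hS
  choose b hb using hT
  have h5 : m ≤ #(Ico (J + 1 - #T) (min #S (J + 1))) := by
    rw [Nat.card_Ico]
    omega
  refine h5.trans (card_le_card_of_injOn (fun α => (a α, b (J - α))) ?_ ?_)
  · intro α hα
    rw [mem_coe, mem_Ico] at hα
    have e1 := ha α (by omega)
    have e2 := hb (J - α) (by omega)
    rw [mem_coe, mem_filter, mem_product]
    refine ⟨⟨e1.1, e2.1⟩, ?_⟩
    simp only
    rw [e1.2, e2.2]
    omega
  · intro α hα β hβ h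
    rw [mem_coe, mem_Ico] at hα hβ
    simp only [Prod.mk.injEq] at h
    have e1 := (ha α (by omega)).2
    have e2 := (ha β (by omega)).2
    rw [← e1, ← e2, h.1]

/-! ### counting in the blow-up -/

section

variable {Q R : Finset (ℝ × ℝ)} {M : ℕ} {C : (ℝ × ℝ) × ℕ → ℝ × ℝ}

open scoped Classical in
lemma cnt (hinj : Set.InjOn C ((Q ×ˢ range M : Finset _) : Set ((ℝ × ℝ) × ℕ)))
    (hR : R ⊆ (Q ×ˢ range M).image C) (φ : ℝ × ℝ → Prop) :
    #{x ∈ R | φ x} = ∑ w ∈ Q, #{k ∈ range M | C (w, k) ∈ R ∧ φ (C (w, k))} := by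
  have h1 : ({z ∈ Q ×ˢ range M | C z ∈ R ∧ φ (C z)}).image C = {x ∈ R | φ x} := by
    ext x
    rw [mem_image, mem_filter]
    constructor
    · rintro ⟨z, hz, rfl⟩
      exact (mem_filter.mp hz).2
    · rintro ⟨hx, hφ⟩
      obtain ⟨z, hz, rfl⟩ := mem_image.mp (hR hx)
      exact ⟨z, mem_filter.mpr ⟨hz, hx, hφ⟩, rfl⟩
  rw [← h1, card_image_of_injOn, card_filter, sum_product]
  · apply sum_congr rfl
    intro w _
    rw [card_filter]
  · intro z hz w hw h
    exact hinj (mem_coe.mpr (mem_filter.mp (mem_coe.mp hz)).1)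
      (mem_coe.mpr (mem_filter.mp (mem_coe.mp hw)).1) h

/-- the remaining elements of a cluster -/
noncomputable def clu (R : Finset (ℝ × ℝ)) (C : (ℝ × ℝ) × ℕ → ℝ × ℝ) (M : ℕ) (u : ℝ × ℝ) :
    Finset ℕ := by
  classical
  exact (range M).filter (fun k => C (u, k) ∈ R)

lemma mem_clu {u : ℝ × ℝ} {k : ℕ} : k ∈ clu R C M u ↔ k < M ∧ C (u, k) ∈ R := by
  classical
  unfold clu
  rw [mem_filter, mem_range]

lemma clu_card_le (u : ℝ × ℝ) : #(clu R C M u) ≤ M := by
  classical
  unfold clu
  exact (card_le_card (filter_subset _ _)).trans (by rw [card_range])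

lemma cr_rev (p q x : ℝ × ℝ) : cr x q p = - cr p q x := by unfold cr; ring

lemma cr_rev' (p q x : ℝ × ℝ) : cr p x q = - cr p q x := by unfold cr; ring

end

/-- **the blow-up theorem** -/
theorem blowup {Q : Finset (ℝ × ℝ)} (hQ : Gen Q) (M : ℕ) :
    ∃ P : Finset (ℝ × ℝ), GeneralPosition P ∧ #P = #Q * M ∧ ∀ R ⊆ P, Even #R →
      {L | IsBisector Q L}.ncard * (M - #(P \ R)) ≤ {L | IsBisector R L}.ncard := by
  classical
  obtain ⟨ε, hε⟩ := exists_shear Q
  obtain ⟨C, hinj, hke, hA, hB, hCc, hD⟩ := geometry (Q := Q) ε M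
  set P := (Q ×ˢ range M).image C with hP
  have hcP : #P = #Q * M := by
    rw [hP, card_image_of_injOn hinj, card_product, card_range]
  refine ⟨P, gp_of_ke hke, hcP, ?_⟩
  intro R hR hRe
  have hPgen : Gen P := gen_of_gp (gp_of_ke hke)
  have hRgen : Gen R := fun p hp q hq x hx => hPgen p (hR hp) q (hR hq) x (hR hx)
  set D := #(P \ R) with hDdef
  rcases le_or_gt M D with hMD | hMD
  · rw [Nat.sub_eq_zero_of_le hMD, mul_zero]
    exact Nat.zero_le _
  have hRD : #R + D = #Q * M := by
    rw [← hcP, hDdef]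
    have := card_sdiff_add_card_eq_card hR
    omega
  -- sizes of the clusters
  set x : ℝ × ℝ → ℕ := fun w => #(clu R C M w) with hx
  have hxM : ∀ w, x w ≤ M := fun w => clu_card_le w
  have hsum : ∑ w ∈ Q, x w = #R := by
    have h := cnt hinj hR (fun _ => True)
    simp only [filter_true, and_true] at h
    rw [h]
    apply sum_congr rfl
    intro w _
    rw [hx]
    simp only
    unfold clu
    rfl
  have hdef : ∑ w ∈ Q, (M - x w) = D := by
    have h1 : ∑ w ∈ Q, (M - x w) + ∑ w ∈ Q, x w = #Q * M := by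
      rw [← sum_add_distrib, sum_congr rfl (fun w _ => Nat.sub_add_cancel (hxM w)), sum_const,
        smul_eq_mul]
    omega
  -- the halving pairs of `Q`
  set H := (HH Q).filter (fun z => (shr ε z.1).1 < (shr ε z.2).1) with hH
  have hHc : {L | IsBisector Q L}.ncard ≤ #H := by
    have h1 := two_mul_ncard_le Q
    have h2 : #(HH Q) ≤ 2 * #H := by
      have h3 : HH Q ⊆ H ∪ H.image Prod.swap := by
        intro z hz
        have hz' := mem_HH.mp hz
        have hne : (shr ε z.1).1 ≠ (shr ε z.2).1 := fun h => hz'.2.2.1 (hε _ hz'.1 _ hz'.2.1 h)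
        rw [mem_union]
        rcases lt_or_gt_of_ne hne with h | h
        · left
          rw [hH, mem_filter]
          exact ⟨hz, h⟩
        · right
          rw [mem_image]
          refine ⟨(z.2, z.1), ?_, rfl⟩
          rw [hH, mem_filter, mem_HH]
          exact ⟨⟨hz'.2.1, hz'.1, hz'.2.2.symm⟩, h⟩
      have h4 := card_le_card h3
      have h5 := card_union_le H (H.image Prod.swap)
      have h6 : #(H.image Prod.swap) ≤ #H := card_image_le
      omega
    omega
  -- the number of points to the right of a pair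
  have hbelow : ∀ u ∈ Q, ∀ v ∈ Q, (shr ε u).1 < (shr ε v).1 → ∀ i < M, ∀ j < M,
      #{y ∈ R | cr (C (u, i)) (C (v, j)) y < 0} =
        ∑ w ∈ Q, (if cr u v w < 0 then x w else 0) + #{k ∈ clu R C M u | k < i} +
          #{k ∈ clu R C M v | k < j} := by
    intro u hu v hv huv i hi j hj
    have huv' : u ≠ v := by rintro rfl; exact lt_irrefl _ huv
    rw [cnt hinj hR (fun y => cr (C (u, i)) (C (v, j)) y < 0)]
    have h1 : ∀ w ∈ Q, #{k ∈ range M | C (w, k) ∈ R ∧ cr (C (u, i)) (C (v, j)) (C (w, k)) < 0} =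
        (if cr u v w < 0 then x w else 0) + (if w = u then #{k ∈ clu R C M u | k < i} else 0) +
          (if w = v then #{k ∈ clu R C M v | k < j} else 0) := by
      intro w hw
      by_cases hwu : w = u
      · subst hwu
        have e0 : ¬ cr w v w < 0 := by unfold cr; simp
        rw [if_neg e0, if_pos rfl, if_neg huv', zero_add, add_zero]
        congr 1
        ext k
        rw [mem_filter, mem_filter, mem_clu, mem_range]
        constructor
        · rintro ⟨h2, h3, h4⟩
          refine ⟨⟨h2, h3⟩, ?_⟩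
          by_contra h5
          push Not at h5
          rcases lt_or_eq_of_le h5 with h6 | h6
          · exact absurd h4 (not_lt.mpr (hB w hw v hv huv i hi k h2 j hj h6).le)
          · rw [h6] at h4
            unfold cr at h4
            simp at h4
        · rintro ⟨⟨h2, h3⟩, h4⟩
          refine ⟨h2, h3, ?_⟩
          have h5 := hB w hw v hv huv k h2 i hi j hj h4
          rw [cr_rev] at h5
          linarith
      · by_cases hwv : w = v
        · subst hwv
          have e0 : ¬ cr u w w < 0 := by unfold cr; simp [mul_comm]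
          rw [if_neg e0, if_neg hwu, if_pos rfl, zero_add, zero_add]
          congr 1
          ext k
          rw [mem_filter, mem_filter, mem_clu, mem_range]
          constructor
          · rintro ⟨h2, h3, h4⟩
            refine ⟨⟨h2, h3⟩, ?_⟩
            by_contra h5
            push Not at h5
            rcases lt_or_eq_of_le h5 with h6 | h6
            · exact absurd h4 (not_lt.mpr (hCc u hu w hw huv i hi j hj k h2 h6).le)
            · rw [h6] at h4
              unfold cr at h4
              simp [mul_comm] at h4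
          · rintro ⟨⟨h2, h3⟩, h4⟩
            refine ⟨h2, h3, ?_⟩
            have h5 := hCc u hu w hw huv i hi k h2 j hj h4
            rw [cr_rev'] at h5
            linarith
        · rw [if_neg hwu, if_neg hwv, add_zero, add_zero]
          have hne := hQ u hu v hv w hw huv' (Ne.symm hwu) (Ne.symm hwv)
          by_cases hneg : cr u v w < 0
          · rw [if_pos hneg, hx]
            simp only
            congr 1
            ext k
            rw [mem_filter, mem_clu, mem_range]
            constructor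
            · rintro ⟨h2, h3, -⟩
              exact ⟨h2, h3⟩
            · rintro ⟨h2, h3⟩
              refine ⟨h2, h3, ?_⟩
              have h5 : 0 < cr v u w := by rw [cr_swap u v w]; linarith
              have h6 := hA v hv u hu w hw j hj i hi k h2 h5
              rw [cr_swap (C (u, i)) (C (v, j))] at h6
              linarith
          · rw [if_neg hneg, card_eq_zero, filter_eq_empty_iff]
            rintro k hk ⟨-, h4⟩
            have h5 : 0 < cr u v w := lt_of_le_of_ne (not_lt.mp hneg) (Ne.symm hne)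
            exact absurd h4 (not_lt.mpr (hA u hu v hv w hw i hi j hj k (mem_range.mp hk) h5).le)
    rw [sum_congr rfl h1, sum_add_distrib, sum_add_distrib, sum_ite_eq' Q u, if_pos hu,
      sum_ite_eq' Q v, if_pos hv]
  -- the number of good pairs for one halving pair of `Q`
  set J : (ℝ × ℝ) × (ℝ × ℝ) → ℕ := fun z =>
    #R / 2 - 1 - ∑ w ∈ Q, (if cr z.1 z.2 w < 0 then x w else 0) with hJ
  set Zs : (ℝ × ℝ) × (ℝ × ℝ) → Finset (ℕ × ℕ) := fun z =>
    {s ∈ clu R C M z.1 ×ˢ clu R C M z.2 |
      #{k ∈ clu R C M z.1 | k < s.1} + #{k ∈ clu R C M z.2 | k < s.2} = J z} with hZs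
  have hkey : ∀ z ∈ H, M - D ≤ #(Zs z) ∧
      J z + ∑ w ∈ Q, (if cr z.1 z.2 w < 0 then x w else 0) = #R / 2 - 1 := by
    rintro ⟨u, v⟩ hz
    rw [hH, mem_filter, mem_HH] at hz
    simp only at hz
    obtain ⟨⟨hu, hv, hhv⟩, huv⟩ := hz
    have huv' := hhv.1
    -- sums over the two sides
    have s1 : ∑ w ∈ Q, x w = ∑ w ∈ Q, (if cr u v w < 0 then x w else 0) +
        ∑ w ∈ Q, (if 0 < cr u v w then x w else 0) + x u + x v := by
      have : ∀ w ∈ Q, x w = (if cr u v w < 0 then x w else 0) + (if 0 < cr u v w then x w else 0) +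
          (if w = u then x u else 0) + (if w = v then x v else 0) := by
        intro w hw
        by_cases hwu : w = u
        · subst hwu
          have e0 : ¬ cr w v w < 0 := by unfold cr; simp
          have e1 : ¬ 0 < cr w v w := by unfold cr; simp
          rw [if_neg e0, if_neg e1, if_pos rfl, if_neg huv']
          omega
        · by_cases hwv : w = v
          · subst hwv
            have e0 : ¬ cr u w w < 0 := by unfold cr; simp [mul_comm]
            have e1 : ¬ 0 < cr u w w := by unfold cr; simp [mul_comm]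
            rw [if_neg e0, if_neg e1, if_neg hwu, if_pos rfl]
            omega
          · have hne := hQ u hu v hv w hw huv' (Ne.symm hwu) (Ne.symm hwv)
            rw [if_neg hwu, if_neg hwv]
            rcases lt_or_gt_of_ne hne with h | h
            · rw [if_pos h, if_neg (not_lt.mpr h.le)]
              omega
            · rw [if_pos h, if_neg (not_lt.mpr h.le)]
              omega
      rw [sum_congr rfl this, sum_add_distrib, sum_add_distrib, sum_add_distrib,
        sum_ite_eq' Q u, if_pos hu, sum_ite_eq' Q v, if_pos hv]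
    have s2 : ∑ w ∈ Q, (M - x w) = ∑ w ∈ Q, (if cr u v w < 0 then M - x w else 0) +
        ∑ w ∈ Q, (if 0 < cr u v w then M - x w else 0) + (M - x u) + (M - x v) := by
      have : ∀ w ∈ Q, M - x w = (if cr u v w < 0 then M - x w else 0) +
          (if 0 < cr u v w then M - x w else 0) +
          (if w = u then M - x u else 0) + (if w = v then M - x v else 0) := by
        intro w hw
        by_cases hwu : w = u
        · subst hwu
          have e0 : ¬ cr w v w < 0 := by unfold cr; simp
          have e1 : ¬ 0 < cr w v w := by unfold cr; simp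
          rw [if_neg e0, if_neg e1, if_pos rfl, if_neg huv']
          omega
        · by_cases hwv : w = v
          · subst hwv
            have e0 : ¬ cr u w w < 0 := by unfold cr; simp [mul_comm]
            have e1 : ¬ 0 < cr u w w := by unfold cr; simp [mul_comm]
            rw [if_neg e0, if_neg e1, if_neg hwu, if_pos rfl]
            omega
          · have hne := hQ u hu v hv w hw huv' (Ne.symm hwu) (Ne.symm hwv)
            rw [if_neg hwu, if_neg hwv]
            rcases lt_or_gt_of_ne hne with h | h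
            · rw [if_pos h, if_neg (not_lt.mpr h.le)]
              omega
            · rw [if_pos h, if_neg (not_lt.mpr h.le)]
              omega
      rw [sum_congr rfl this, sum_add_distrib, sum_add_distrib, sum_add_distrib,
        sum_ite_eq' Q u, if_pos hu, sum_ite_eq' Q v, if_pos hv]
    have s3 : ∑ w ∈ Q, (if cr u v w < 0 then M - x w else 0) +
        ∑ w ∈ Q, (if cr u v w < 0 then x w else 0) = (#Q / 2 - 1) * M := by
      rw [← hhv.2.2, card_filter, sum_mul, ← sum_add_distrib]
      apply sum_congr rfl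
      intro w _
      have := hxM w
      split_ifs <;> omega
    have s4 : ∑ w ∈ Q, (if 0 < cr u v w then M - x w else 0) +
        ∑ w ∈ Q, (if 0 < cr u v w then x w else 0) = (#Q / 2 - 1) * M := by
      rw [← hhv.2.1, card_filter, sum_mul, ← sum_add_distrib]
      apply sum_congr rfl
      intro w _
      have := hxM w
      split_ifs <;> omega
    have hxu := hxM u
    have hxv := hxM v
    have hRev := Nat.even_iff.mp hRe
    rw [hsum] at s1
    rw [hdef] at s2
    have hJe : J (u, v) = #R / 2 - 1 - ∑ w ∈ Q, (if cr u v w < 0 then x w else 0) := rfl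
    generalize ∑ w ∈ Q, (if cr u v w < 0 then x w else 0) = b at *
    generalize ∑ w ∈ Q, (if 0 < cr u v w then x w else 0) = a at *
    generalize ∑ w ∈ Q, (if cr u v w < 0 then M - x w else 0) = b' at *
    generalize ∑ w ∈ Q, (if 0 < cr u v w then M - x w else 0) = a' at *
    generalize (#Q / 2 - 1) * M = c at *
    refine ⟨?_, ?_⟩
    · apply rank_pairs
      · show M - D ≤ x u
        omega
      · show M - D ≤ x v
        omega
      · rw [hJe]
        omega
      · show M - D + J (u, v) + 1 ≤ x u + x v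
        rw [hJe]
        omega
    · show J (u, v) + b = #R / 2 - 1
      rw [hJe]
      omega
  -- all good pairs
  set S := H.sigma Zs with hS
  have hScard : #H * (M - D) ≤ #S := by
    rw [hS, card_sigma, ← smul_eq_mul]
    exact card_nsmul_le_sum H _ _ (fun z hz => (hkey z hz).1)
  set Φ : (Σ _ : (ℝ × ℝ) × (ℝ × ℝ), ℕ × ℕ) → (ℝ × ℝ) × (ℝ × ℝ) :=
    fun s => (C (s.1.1, s.2.1), C (s.1.2, s.2.2)) with hΦ
  have hSmem : ∀ s ∈ S, (s.1.1 ∈ Q ∧ s.1.2 ∈ Q ∧ Hv Q s.1.1 s.1.2 ∧
      (shr ε s.1.1).1 < (shr ε s.1.2).1) ∧ (s.2.1 < M ∧ C (s.1.1, s.2.1) ∈ R) ∧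
      (s.2.2 < M ∧ C (s.1.2, s.2.2) ∈ R) ∧
      #{k ∈ clu R C M s.1.1 | k < s.2.1} + #{k ∈ clu R C M s.1.2 | k < s.2.2} = J s.1 ∧
      s.1 ∈ H := by
    intro s hs
    rw [hS, mem_sigma] at hs
    have h1 := hs.1
    rw [hH, mem_filter, mem_HH] at h1
    have h2 := hs.2
    rw [hZs] at h2
    simp only [mem_filter, mem_product, mem_clu] at h2
    exact ⟨⟨h1.1.1, h1.1.2.1, h1.1.2.2, h1.2⟩, h2.1.1, h2.1.2, h2.2, hs.1⟩
  have hΦinj : Set.InjOn Φ S := by
    intro s hs s' hs' h
    obtain ⟨⟨a1, a2, -, -⟩, ⟨a3, -⟩, ⟨a4, -⟩, -, -⟩ := hSmem s hs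
    obtain ⟨⟨b1, b2, -, -⟩, ⟨b3, -⟩, ⟨b4, -⟩, -, -⟩ := hSmem s' hs'
    rw [hΦ] at h
    simp only [Prod.mk.injEq] at h
    have e1 := hinj (by rw [mem_coe, mem_product, mem_range]; exact ⟨a1, a3⟩)
      (by rw [mem_coe, mem_product, mem_range]; exact ⟨b1, b3⟩) h.1
    have e2 := hinj (by rw [mem_coe, mem_product, mem_range]; exact ⟨a2, a4⟩)
      (by rw [mem_coe, mem_product, mem_range]; exact ⟨b2, b4⟩) h.2
    rw [Prod.mk.injEq] at e1 e2
    obtain ⟨⟨p, q⟩, ⟨k, l⟩⟩ := s
    obtain ⟨⟨p', q'⟩, ⟨k', l'⟩⟩ := s'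
    simp only at e1 e2
    rw [e1.1, e1.2, e2.1, e2.2]
  have hfin := pairs_le hRgen (fun p => (shr ε p).1) (S.image Φ) (by
    intro z hz
    obtain ⟨s, hs, rfl⟩ := mem_image.mp hz
    obtain ⟨⟨a1, a2, a5, a6⟩, ⟨a3, a3'⟩, ⟨a4, a4'⟩, a7, a8⟩ := hSmem s hs
    refine ⟨a3', a4', ?_, hD _ a1 _ a2 a6 _ a3 _ a4⟩
    have hne : C (s.1.1, s.2.1) ≠ C (s.1.2, s.2.2) := by
      intro h
      have := hD _ a1 _ a2 a6 _ a3 _ a4
      rw [h] at this
      exact lt_irrefl _ this
    have h1 := hbelow _ a1 _ a2 a6 _ a3 _ a4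
    have h2 := (hkey _ a8).2
    have h3 : #{y ∈ R | cr (C (s.1.1, s.2.1)) (C (s.1.2, s.2.2)) y < 0} = #R / 2 - 1 := by
      rw [h1]
      omega
    have h4 := card3 hRgen a3' a4' hne
    refine ⟨hne, ?_, h3⟩
    show #{y ∈ R | 0 < cr (C (s.1.1, s.2.1)) (C (s.1.2, s.2.2)) y} = #R / 2 - 1
    have hRev := Nat.even_iff.mp hRe
    omega)
  rw [card_image_of_injOn hΦinj] at hfin
  calc {L | IsBisector Q L}.ncard * (M - D) ≤ #H * (M - D) := Nat.mul_le_mul_right _ hHc
    _ ≤ #S := hScard
    _ ≤ _ := hfin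

end Pool.Agent.U463.HD
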