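import Mathlib

/-!
# Deleting initial parts of three clusters: the counting argument
-/

set_option autoImplicit false

namespace Pool.Agent.U463.HD

open Finset

variable {ι E : Type*} [Fintype ι] [DecidableEq ι]

/-- what remains after the deletion -/
def rem (D : Fin 3 → ℕ → Finset ι) (s : ℕ × ℕ × ℕ) : Finset ι :=
  univ \ (D 0 s.1 ∪ D 1 s.2.1 ∪ D 2 s.2.2)

/-- the cube of the parameters -/
def cube (t : ℕ) : Finset (ℕ × ℕ × ℕ) := range t ×ˢ range t ×ˢ range t

lemma mem_cube {t : ℕ} {s : ℕ × ℕ × ℕ} : s ∈ cube t ↔ s.1 < t ∧ s.2.1 < t ∧ s.2.2 < t := by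
  unfold cube
  rw [mem_product, mem_product, mem_range, mem_range, mem_range]

/-- the parameters for which the number of remaining elements is even -/
def ev3 (n t : ℕ) : Finset (ℕ × ℕ × ℕ) := (cube t).filter (fun s => Even (n + s.1 + s.2.1 + s.2.2))

lemma ev3_card (n t : ℕ) : t ^ 2 * (t / 2) ≤ #(ev3 n t) := by
  have h : #(range t ×ˢ range t ×ˢ range (t / 2)) ≤ #(ev3 n t) := by
    apply card_le_card_of_injOn (fun s => (s.1, s.2.1, 2 * s.2.2 + (n + s.1 + s.2.1) % 2))
    · intro s hs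
      rw [mem_coe, mem_product, mem_product, mem_range, mem_range, mem_range] at hs
      rw [mem_coe]
      unfold ev3
      rw [mem_filter, mem_cube]
      refine ⟨⟨hs.1, hs.2.1, ?_⟩, ?_⟩
      · have := Nat.mod_lt (n + s.1 + s.2.1) (by norm_num : 0 < 2)
        simp only
        omega
      · rw [Nat.even_iff]
        simp only
        omega
    · rintro ⟨a, b, c⟩ _ ⟨a', b', c'⟩ _ h
      simp only [Prod.mk.injEq] at h ⊢
      obtain ⟨rfl, rfl, h⟩ := h
      exact ⟨rfl, rfl, by omega⟩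
  rw [card_product, card_product, card_range, card_range] at h
  calc t ^ 2 * (t / 2) = t * (t * (t / 2)) := by ring
    _ ≤ _ := h

structure Chains (A : Fin 3 → Finset ι) (D : Fin 3 → ℕ → Finset ι) (t : ℕ) : Prop where
  sub : ∀ c, ∀ s < t, D c s ⊆ A c
  card : ∀ c, ∀ s < t, #(D c s) = s
  disj : ∀ c c', c ≠ c' → Disjoint (A c) (A c')

variable {A : Fin 3 → Finset ι} {D : Fin 3 → ℕ → Finset ι} {t : ℕ}

lemma Chains.inter_rem (h : Chains A D t) {s : ℕ × ℕ × ℕ} (hs : s ∈ cube t) (B : Finset ι) :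
    #(B ∩ rem D s) + (#(B ∩ D 0 s.1) + #(B ∩ D 1 s.2.1) + #(B ∩ D 2 s.2.2)) = #B := by
  rw [mem_cube] at hs
  have s0 := h.sub 0 _ hs.1
  have s1 := h.sub 1 _ hs.2.1
  have s2 := h.sub 2 _ hs.2.2
  have d01 : Disjoint (B ∩ D 0 s.1) (B ∩ D 1 s.2.1) :=
    (h.disj 0 1 (by decide)).mono (inter_subset_right.trans s0) (inter_subset_right.trans s1)
  have d02 : Disjoint (B ∩ D 0 s.1) (B ∩ D 2 s.2.2) :=
    (h.disj 0 2 (by decide)).mono (inter_subset_right.trans s0) (inter_subset_right.trans s2)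
  have d12 : Disjoint (B ∩ D 1 s.2.1) (B ∩ D 2 s.2.2) :=
    (h.disj 1 2 (by decide)).mono (inter_subset_right.trans s1) (inter_subset_right.trans s2)
  have h1 : B ∩ (D 0 s.1 ∪ D 1 s.2.1 ∪ D 2 s.2.2) =
      (B ∩ D 0 s.1) ∪ (B ∩ D 1 s.2.1) ∪ (B ∩ D 2 s.2.2) := by
    rw [inter_union_distrib_left, inter_union_distrib_left]
  have h2 : #(B ∩ (D 0 s.1 ∪ D 1 s.2.1 ∪ D 2 s.2.2)) =
      #(B ∩ D 0 s.1) + #(B ∩ D 1 s.2.1) + #(B ∩ D 2 s.2.2) := by
    rw [h1, card_union_of_disjoint (disjoint_union_left.mpr ⟨d02, d12⟩),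
      card_union_of_disjoint d01]
  have h3 : B ∩ rem D s = B \ (D 0 s.1 ∪ D 1 s.2.1 ∪ D 2 s.2.2) := by
    unfold rem
    ext x
    simp only [mem_inter, mem_sdiff, mem_univ, true_and]
  rw [← h2, h3]
  have := card_sdiff_add_card_inter B (D 0 s.1 ∪ D 1 s.2.1 ∪ D 2 s.2.2)
  exact this

lemma Chains.card_rem (h : Chains A D t) {s : ℕ × ℕ × ℕ} (hs : s ∈ cube t) :
    #(rem D s) + (s.1 + s.2.1 + s.2.2) = Fintype.card ι := by
  have h1 := h.inter_rem hs univ
  rw [mem_cube] at hs
  rw [univ_inter, univ_inter, univ_inter, univ_inter, h.card 0 _ hs.1, h.card 1 _ hs.2.1,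
    h.card 2 _ hs.2.2, card_univ] at h1
  exact h1

/-- balance condition -/
def Bal (D : Fin 3 → ℕ → Finset ι) (B : Finset ι) (s : ℕ × ℕ × ℕ) : Prop :=
  2 * #(B ∩ rem D s) + 2 = #(rem D s)

instance (D : Fin 3 → ℕ → Finset ι) (B : Finset ι) (s : ℕ × ℕ × ℕ) : Decidable (Bal D B s) := by
  unfold Bal; infer_instance

/-- the number of elements below is nearly half when the pair is balanced -/
lemma Chains.window (h : Chains A D t) {s : ℕ × ℕ × ℕ} (hs : s ∈ cube t) {B : Finset ι}
    (hB : Bal D B s) : 2 * #B + 2 ≤ Fintype.card ι + 3 * t ∧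
      Fintype.card ι ≤ 2 * #B + 2 + 3 * t := by
  have h1 := h.inter_rem hs B
  have h2 := h.card_rem hs
  unfold Bal at hB
  rw [mem_cube] at hs
  have e0 : #(B ∩ D 0 s.1) ≤ s.1 := by
    rw [← h.card 0 _ hs.1]
    exact card_le_card (inter_subset_right.trans (by rw [h.card 0 _ hs.1]))
  have e1 : #(B ∩ D 1 s.2.1) ≤ s.2.1 := by
    rw [← h.card 1 _ hs.2.1]
    exact card_le_card (inter_subset_right.trans (by rw [h.card 1 _ hs.2.1]))
  have e2 : #(B ∩ D 2 s.2.2) ≤ s.2.2 := by
    rw [← h.card 2 _ hs.2.2]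
    exact card_le_card (inter_subset_right.trans (by rw [h.card 2 _ hs.2.2]))
  omega

omit [Fintype ι] in
lemma hom_card (h : Chains A D t) {B : Finset ι} {c : Fin 3}
    (hc : A c ⊆ B ∨ Disjoint (A c) B) {s : ℕ} (hs : s < t) :
    #(B ∩ D c s) = if A c ⊆ B then s else 0 := by
  have h1 := h.sub c s hs
  have h2 := h.card c s hs
  split_ifs with h3
  · rw [inter_eq_right.mpr (h1.trans h3), h2]
  · have h4 := hc.resolve_left h3
    rw [card_eq_zero, ← disjoint_iff_inter_eq_empty]
    exact (h4.mono_left h1).symm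

/-- a pair which misses one of the clusters is balanced for few parameters -/
lemma Chains.few (h : Chains A D t) {B : Finset ι} {c : Fin 3}
    (hc : A c ⊆ B ∨ Disjoint (A c) B) : #((cube t).filter (fun s => Bal D B s)) ≤ t ^ 2 := by
  have key : ∀ s ∈ cube t, Bal D B s →
      2 * (#B : ℤ) + 2 - Fintype.card ι =
        (2 * (#(B ∩ D 0 s.1) : ℤ) - s.1) + (2 * (#(B ∩ D 1 s.2.1) : ℤ) - s.2.1) +
          (2 * (#(B ∩ D 2 s.2.2) : ℤ) - s.2.2) := by
    intro s hs hB
    have h1 := h.inter_rem hs B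
    have h2 := h.card_rem hs
    unfold Bal at hB
    push_cast [← h1, ← h2, ← hB]
    have h3 : (2 * (#(B ∩ rem D s) : ℤ) + 2) = #(rem D s) := by exact_mod_cast hB
    linarith
  have hcard : #(range t ×ˢ range t) = t ^ 2 := by
    rw [card_product, card_range]; ring
  rw [← hcard]
  have hc3 : c = 0 ∨ c = 1 ∨ c = 2 := by
    fin_cases c
    · exact Or.inl rfl
    · exact Or.inr (Or.inl rfl)
    · exact Or.inr (Or.inr rfl)
  rcases hc3 with rfl | rfl | rfl
  · apply card_le_card_of_injOn (fun s => (s.2.1, s.2.2))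
    · intro s hs
      rw [mem_coe, mem_filter, mem_cube] at hs
      rw [mem_coe, mem_product, mem_range, mem_range]
      exact ⟨hs.1.2.1, hs.1.2.2⟩
    · rintro ⟨x, y, z⟩ hs ⟨x', y', z'⟩ hs' heq
      rw [mem_coe, mem_filter] at hs hs'
      simp only [Prod.mk.injEq] at heq
      obtain ⟨rfl, rfl⟩ := heq
      have k1 := key _ hs.1 hs.2
      have k2 := key _ hs'.1 hs'.2
      have m1 := mem_cube.mp hs.1
      have m2 := mem_cube.mp hs'.1
      simp only at k1 k2 m1 m2
      rw [hom_card h hc m1.1] at k1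
      rw [hom_card h hc m2.1] at k2
      have : x = x' := by
        split_ifs at k1 k2 <;> push_cast at k1 k2 <;> omega
      rw [this]
  · apply card_le_card_of_injOn (fun s => (s.1, s.2.2))
    · intro s hs
      rw [mem_coe, mem_filter, mem_cube] at hs
      rw [mem_coe, mem_product, mem_range, mem_range]
      exact ⟨hs.1.1, hs.1.2.2⟩
    · rintro ⟨x, y, z⟩ hs ⟨x', y', z'⟩ hs' heq
      rw [mem_coe, mem_filter] at hs hs'
      simp only [Prod.mk.injEq] at heq
      obtain ⟨rfl, rfl⟩ := heq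
      have k1 := key _ hs.1 hs.2
      have k2 := key _ hs'.1 hs'.2
      have m1 := mem_cube.mp hs.1
      have m2 := mem_cube.mp hs'.1
      simp only at k1 k2 m1 m2
      rw [hom_card h hc m1.2.1] at k1
      rw [hom_card h hc m2.2.1] at k2
      have : y = y' := by
        split_ifs at k1 k2 <;> push_cast at k1 k2 <;> omega
      rw [this]
  · apply card_le_card_of_injOn (fun s => (s.1, s.2.1))
    · intro s hs
      rw [mem_coe, mem_filter, mem_cube] at hs
      rw [mem_coe, mem_product, mem_range, mem_range]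
      exact ⟨hs.1.1, hs.1.2.1⟩
    · rintro ⟨x, y, z⟩ hs ⟨x', y', z'⟩ hs' heq
      rw [mem_coe, mem_filter] at hs hs'
      simp only [Prod.mk.injEq] at heq
      obtain ⟨rfl, rfl⟩ := heq
      have k1 := key _ hs.1 hs.2
      have k2 := key _ hs'.1 hs'.2
      have m1 := mem_cube.mp hs.1
      have m2 := mem_cube.mp hs'.1
      simp only at k1 k2 m1 m2
      rw [hom_card h hc m1.2.2] at k1
      rw [hom_card h hc m2.2.2] at k2
      have : z = z' := by
        split_ifs at k1 k2 <;> push_cast at k1 k2 <;> omega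
      rw [this]

open scoped Classical in
/-- **some even deletion leaves few balanced pairs** -/
theorem Chains.exists_good (h : Chains A D t) (ht : 2 ≤ t) (T : Finset E) (B : E → Finset ι)
    (hom : ∀ e ∈ T, ∃ c, A c ⊆ B e ∨ Disjoint (A c) (B e)) :
    ∃ s ∈ cube t, Even #(rem D s) ∧
      #{e ∈ T | Bal D (B e) s} * (t / 2) ≤
        #{e ∈ T | 2 * #(B e) + 2 ≤ Fintype.card ι + 3 * t ∧
          Fintype.card ι ≤ 2 * #(B e) + 2 + 3 * t} := by
  set G := ev3 (Fintype.card ι) t with hG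
  set EW := {e ∈ T | 2 * #(B e) + 2 ≤ Fintype.card ι + 3 * t ∧
          Fintype.card ι ≤ 2 * #(B e) + 2 + 3 * t} with hEW
  have hGc := ev3_card (Fintype.card ι) t
  have hGpos : 0 < #G := by
    refine lt_of_lt_of_le ?_ hGc
    have h1 : 0 < t / 2 := Nat.div_pos ht (by norm_num)
    have h2 : 0 < t := by omega
    positivity
  have hsum : ∑ s ∈ G, #{e ∈ T | Bal D (B e) s} ≤ #EW * t ^ 2 := by
    calc ∑ s ∈ G, #{e ∈ T | Bal D (B e) s} = ∑ s ∈ G, ∑ e ∈ T, if Bal D (B e) s then 1 else 0 := by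
          apply sum_congr rfl
          intro s _
          rw [card_filter]
      _ = ∑ e ∈ T, ∑ s ∈ G, if Bal D (B e) s then 1 else 0 := sum_comm
      _ = ∑ e ∈ EW, ∑ s ∈ G, if Bal D (B e) s then 1 else 0 := by
          symm
          apply sum_subset (filter_subset _ _)
          intro e he hne
          apply sum_eq_zero
          intro s hs
          rw [if_neg]
          intro hb
          apply hne
          rw [mem_filter]
          rw [hG] at hs
          unfold ev3 at hs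
          exact ⟨he, h.window (mem_filter.mp hs).1 hb⟩
      _ ≤ ∑ e ∈ EW, t ^ 2 := by
          apply sum_le_sum
          intro e he
          obtain ⟨c, hc⟩ := hom e (mem_filter.mp he).1
          rw [← card_filter]
          refine le_trans (card_le_card ?_) (h.few hc)
          intro s hs
          rw [mem_filter] at hs ⊢
          rw [hG] at hs
          unfold ev3 at hs
          exact ⟨(mem_filter.mp hs.1).1, hs.2⟩
      _ = #EW * t ^ 2 := by rw [sum_const, smul_eq_mul]
  obtain ⟨s, hs, hmin⟩ := G.exists_min_image (fun s => #{e ∈ T | Bal D (B e) s})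
    (card_pos.mp hGpos)
  have h1 : #G * #{e ∈ T | Bal D (B e) s} ≤ #EW * t ^ 2 := by
    refine le_trans ?_ hsum
    rw [← smul_eq_mul]
    exact card_nsmul_le_sum G _ _ hmin
  have hs' : s ∈ cube t ∧ Even (Fintype.card ι + s.1 + s.2.1 + s.2.2) := by
    rw [hG] at hs
    unfold ev3 at hs
    exact mem_filter.mp hs
  refine ⟨s, hs'.1, ?_, ?_⟩
  · have h2 := h.card_rem hs'.1
    have h3 := hs'.2
    rw [Nat.even_iff] at h3 ⊢
    omega
  · have h2 : t ^ 2 * (#{e ∈ T | Bal D (B e) s} * (t / 2)) ≤ t ^ 2 * #EW := by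
      calc t ^ 2 * (#{e ∈ T | Bal D (B e) s} * (t / 2))
          = (t ^ 2 * (t / 2)) * #{e ∈ T | Bal D (B e) s} := by ring
        _ ≤ #G * #{e ∈ T | Bal D (B e) s} := Nat.mul_le_mul_right _ hGc
        _ ≤ #EW * t ^ 2 := h1
        _ = t ^ 2 * #EW := by ring
    exact Nat.le_of_mul_le_mul_left h2 (by positivity)

end Pool.Agent.U463.HD
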