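import Pool.Agent.U463.HD.Main

/-!
# Halving lines after the deletion of few points: the bound
-/

set_option autoImplicit false

namespace Pool.Agent.U463.HD

open Finset Pool.Agent.W296.HL Pool.Agent.Y429.HalvFew

lemma gen_subset {P R : Finset (ℝ × ℝ)} (hP : Gen P) (h : R ⊆ P) : Gen R := by
  intro p hp q hq x hx
  exact hP p (h hp) q (h hq) x (h hx)

/-- Dey's bound -/
lemma dey {P : Finset (ℝ × ℝ)} (hP : Gen P) :
    ({L | IsBisector P L}.ncard : ℝ) ≤ 7 * (#P : ℝ) ^ (4 / 3 : ℝ) := by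
  classical
  have h := main hP (c := 0) (fun i => i.elim0) (fun i => i.elim0)
  have h1 : ({p ∈ P | ∀ i : Fin 0, p ∉ (fun i : Fin 0 => (i.elim0 : Finset (ℝ × ℝ))) i} :
      Finset (ℝ × ℝ)) = P := by
    apply filter_true_of_mem
    intro p _ i
    exact i.elim0
  rw [h1] at h
  have h2 : ((#P : ℝ) * #P) ^ (2 / 3 : ℝ) = (#P : ℝ) ^ (4 / 3 : ℝ) := by
    rw [← sq, ← Real.rpow_natCast, ← Real.rpow_mul (Nat.cast_nonneg _)]
    norm_num
  rw [h2] at h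
  simpa using h

lemma cube_root {d t : ℕ} (ht : 0 < t) (h : d ≤ 48 * t) :
    ((4 * t : ℝ)) ^ (2 / 3 : ℝ) * (d : ℝ) ^ (1 / 3 : ℝ) ≤ 9.2 * t := by
  have ht0 : (0 : ℝ) < t := by exact_mod_cast ht
  have hd : (d : ℝ) ≤ 48 * t := by exact_mod_cast h
  have hd0 : (0 : ℝ) ≤ d := Nat.cast_nonneg d
  refine le_of_pow_le_pow_left₀ (n := 3) (by norm_num) (by positivity) ?_
  rw [mul_pow, ← Real.rpow_natCast ((4 * t : ℝ) ^ (2 / 3 : ℝ)), ← Real.rpow_mul (by positivity),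
    ← Real.rpow_natCast ((d : ℝ) ^ (1 / 3 : ℝ)), ← Real.rpow_mul hd0]
  norm_num
  have h1 : (4 * (t : ℝ)) ^ 2 * d ≤ (4 * (t : ℝ)) ^ 2 * (48 * t) := by gcongr
  refine h1.trans ?_
  have h3 : 0 < (t : ℝ) ^ 3 := by positivity
  nlinarith

/-- **the bound** -/
theorem bound {P : Finset (ℝ × ℝ)} (hP : Gen P) {d : ℕ} (hd : 1 ≤ d) (hdP : d ≤ #P) :
    ∃ R ⊆ P, Even #R ∧ #P ≤ #R + d ∧
      ({L | IsBisector R L}.ncard : ℝ) ≤ 500 * (#P : ℝ) ^ (4 / 3 : ℝ) / (d : ℝ) ^ (1 / 3 : ℝ) := by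
  classical
  have hd0 : (0 : ℝ) < d := by exact_mod_cast hd
  have hdr : 0 < (d : ℝ) ^ (1 / 3 : ℝ) := Real.rpow_pos_of_pos hd0 _
  rcases lt_or_ge d 48 with hsmall | hbig
  · have key : ∀ R ⊆ P, ({L | IsBisector R L}.ncard : ℝ) ≤
        500 * (#P : ℝ) ^ (4 / 3 : ℝ) / (d : ℝ) ^ (1 / 3 : ℝ) := by
      intro R hR
      have h1 := dey (gen_subset hP hR)
      have h2 : (#R : ℝ) ≤ #P := by exact_mod_cast card_le_card hR
      have h3 : (#R : ℝ) ^ (4 / 3 : ℝ) ≤ (#P : ℝ) ^ (4 / 3 : ℝ) := by gcongr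
      have h4 : (d : ℝ) ^ (1 / 3 : ℝ) ≤ 4 := by
        have : (d : ℝ) ≤ 64 := by exact_mod_cast (by omega : d ≤ 64)
        calc (d : ℝ) ^ (1 / 3 : ℝ) ≤ (64 : ℝ) ^ (1 / 3 : ℝ) := by gcongr
          _ = 4 := by
              rw [show (64 : ℝ) = 4 ^ (3 : ℝ) by norm_num, ← Real.rpow_mul (by norm_num)]
              norm_num
      have h5 : 0 ≤ (#P : ℝ) ^ (4 / 3 : ℝ) := by positivity
      rw [le_div_iff₀ hdr]
      nlinarith
    rcases Nat.even_or_odd #P with he | ho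
    · exact ⟨P, Subset.refl _, he, by omega, key P (Subset.refl _)⟩
    · obtain ⟨p, hp⟩ : P.Nonempty := card_pos.mp (by omega)
      refine ⟨P.erase p, erase_subset _ _, ?_, ?_, key _ (erase_subset _ _)⟩
      · rw [card_erase_of_mem hp]
        rw [Nat.odd_iff] at ho
        rw [Nat.even_iff]
        omega
      · rw [card_erase_of_mem hp]
        omega
  · obtain ⟨ε, hε⟩ := exists_shear P
    have hG := gp_shear hP hε
    have hcQ : #(P.image (shr ε)) = #P := card_image_of_injective _ (shr_inj ε)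
    set t := d / 24 with ht
    have ht2 : 2 ≤ t := by omega
    obtain ⟨R', hR', hev, hcard, hb⟩ := discrete hG ht2 (by rw [hcQ]; omega)
    rw [hcQ] at hcard hb
    set R := P.filter (fun x => shr ε x ∈ R') with hR
    have himg : R.image (shr ε) = R' := by
      ext x
      rw [mem_image]
      constructor
      · rintro ⟨y, hy, rfl⟩
        exact (mem_filter.mp hy).2
      · intro hx
        obtain ⟨y, hy, rfl⟩ := mem_image.mp (hR' hx)
        exact ⟨y, mem_filter.mpr ⟨hy, hx⟩, rfl⟩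
    have hRP : R ⊆ P := filter_subset _ _
    have hcR : #R = #R' := by rw [← himg, card_image_of_injective _ (shr_inj ε)]
    have hbis := bis_le (P := R) (ε := ε) (fun x hx y hy => hε x (hRP hx) y (hRP hy))
    rw [himg, hcR] at hbis
    refine ⟨R, hRP, by rw [hcR]; exact hev, by rw [hcR]; omega, ?_⟩
    set N : ℝ := ({L | IsBisector R L}.ncard : ℝ) with hN
    have hN0 : 0 ≤ N := Nat.cast_nonneg _
    have h1 : N * (t / 2 : ℕ) ≤
        18 * #P * ((#P : ℝ) ^ (1 / 3 : ℝ) * ((3 * t + 1 : ℕ) : ℝ) ^ (2 / 3 : ℝ)) := by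
      refine le_trans ?_ hb
      have : N ≤ (#(TH124.KE.kes R' (#R' / 2 - 1)) : ℝ) := Nat.cast_le.mpr hbis
      gcongr
    have ht0 : (0 : ℝ) < t := by exact_mod_cast (by omega : 0 < t)
    have h2 : (t : ℝ) / 3 ≤ (t / 2 : ℕ) := by
      rw [div_le_iff₀ (by norm_num)]
      exact_mod_cast (by omega : t ≤ t / 2 * 3)
    have h3 : ((3 * t + 1 : ℕ) : ℝ) ^ (2 / 3 : ℝ) ≤ (4 * t : ℝ) ^ (2 / 3 : ℝ) := by
      gcongr
      exact_mod_cast (by omega : 3 * t + 1 ≤ 4 * t)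
    have hn0 : (0 : ℝ) < #P := by exact_mod_cast (by omega : 0 < #P)
    have h4 : (#P : ℝ) * (#P : ℝ) ^ (1 / 3 : ℝ) = (#P : ℝ) ^ (4 / 3 : ℝ) := by
      nth_rewrite 1 [← Real.rpow_one (#P : ℝ)]
      rw [← Real.rpow_add hn0]
      norm_num
    set X : ℝ := (#P : ℝ) ^ (4 / 3 : ℝ) with hX
    have hX0 : 0 < X := Real.rpow_pos_of_pos hn0 _
    have h5 : N * t ≤ 54 * X * (4 * t : ℝ) ^ (2 / 3 : ℝ) := by
      calc N * t = 3 * (N * (t / 3)) := by ring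
        _ ≤ 3 * (N * (t / 2 : ℕ)) := by gcongr
        _ ≤ 3 * (18 * #P * ((#P : ℝ) ^ (1 / 3 : ℝ) * ((3 * t + 1 : ℕ) : ℝ) ^ (2 / 3 : ℝ))) := by
            gcongr
        _ = 54 * (#P * (#P : ℝ) ^ (1 / 3 : ℝ)) * ((3 * t + 1 : ℕ) : ℝ) ^ (2 / 3 : ℝ) := by ring
        _ ≤ 54 * X * (4 * t : ℝ) ^ (2 / 3 : ℝ) := by
            rw [h4]
            gcongr
    have h6 := cube_root (d := d) (t := t) (by omega) (by omega)
    rw [le_div_iff₀ hdr]
    have h7 : (N * (d : ℝ) ^ (1 / 3 : ℝ)) * t ≤ (500 * X) * t := by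
      calc (N * (d : ℝ) ^ (1 / 3 : ℝ)) * t = (N * t) * (d : ℝ) ^ (1 / 3 : ℝ) := by ring
        _ ≤ (54 * X * (4 * t : ℝ) ^ (2 / 3 : ℝ)) * (d : ℝ) ^ (1 / 3 : ℝ) := by gcongr
        _ = 54 * X * ((4 * t : ℝ) ^ (2 / 3 : ℝ) * (d : ℝ) ^ (1 / 3 : ℝ)) := by ring
        _ ≤ 54 * X * (9.2 * t) := by gcongr
        _ ≤ (500 * X) * t := by nlinarith [mul_pos hX0 ht0]
    exact le_of_mul_le_mul_right h7 ht0

end Pool.Agent.U463.HD
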