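import Pool.Agent.U463.HD.Ham
import Pool.Agent.Y344.KD.Win
import Pool.Agent.Y344.KD.Pert
import Pool.Agent.Y429.HalvFew

/-!
# Blow-ups of point sets
-/

set_option autoImplicit false

namespace Pool.Agent.U463.HD

open Finset Pool.Agent.W296.HL Filter Topology

open Pool.Agent.Y429.HalvFew (shr shr_inj exists_shear)

lemma gp_of_ke {P : Finset (ℝ × ℝ)} (hP : Pool.Agent.TH124.KE.GP P) : GeneralPosition P := by
  rintro a b c hab p hp q hq r hr hpq hpr hqr ⟨h1, h2, h3⟩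
  simp only [Line, Set.mem_ofPred_eq] at h1 h2 h3
  have n1 := hP.ne1 hp hq hpq
  have n2 := hP.ne1 hp hr hpr
  by_cases hb : b = 0
  · have ha : a ≠ 0 := by
      rcases hab with h | h
      · exact h
      · exact absurd hb h
    apply n1
    rw [hb] at h1 h2
    have : a * (p.1 - q.1) = 0 := by linarith
    rcases mul_eq_zero.mp this with h | h
    · exact absurd h ha
    · linarith
  · apply hP.col p hp q hq r hr hpq hpr hqr
    have e : ∀ x y : ℝ × ℝ, a * x.1 + b * x.2 = c → a * y.1 + b * y.2 = c →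
        Pool.Agent.TH124.KE.hh (-a / b) y = Pool.Agent.TH124.KE.hh (-a / b) x := by
      intro x y hx hy
      unfold Pool.Agent.TH124.KE.hh
      field_simp
      linarith
    rw [(Pool.Agent.TH124.KE.hh_eq n1 _).mp (e p q h1 h2),
      (Pool.Agent.TH124.KE.hh_eq n2 _).mp (e p r h1 h3)]

lemma cr_near {n : ℕ} (P0 : Fin n → ℝ × ℝ) : ∀ᶠ P in 𝓝 P0, ∀ a b c : Fin n,
    0 < cr (P0 a) (P0 b) (P0 c) → 0 < cr (P a) (P b) (P c) := by
  rw [eventually_all]; intro a
  rw [eventually_all]; intro b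
  rw [eventually_all]; intro c
  by_cases h : 0 < cr (P0 a) (P0 b) (P0 c)
  · have hc : Continuous fun P : Fin n → ℝ × ℝ => cr (P a) (P b) (P c) := by
      unfold cr; fun_prop
    filter_upwards [hc.continuousAt.eventually (lt_mem_nhds h)] with P hP _
    exact hP
  · exact Eventually.of_forall fun _ h' => absurd h' h

lemma shr_near {n : ℕ} (ε : ℝ) (P0 : Fin n → ℝ × ℝ) : ∀ᶠ P in 𝓝 P0, ∀ a b : Fin n,
    (shr ε (P0 a)).1 < (shr ε (P0 b)).1 → (shr ε (P a)).1 < (shr ε (P b)).1 := by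
  rw [eventually_all]; intro a
  rw [eventually_all]; intro b
  by_cases h : (shr ε (P0 a)).1 < (shr ε (P0 b)).1
  · have hc : ∀ a : Fin n, Continuous fun P : Fin n → ℝ × ℝ => (shr ε (P a)).1 := by
      intro a
      unfold shr; fun_prop
    filter_upwards [(hc a).continuousAt.eventually_lt (hc b).continuousAt h] with P hP _
    exact hP
  · exact Eventually.of_forall fun _ h' => absurd h' h

/-- the vertical clusters -/
def c0 (ε η : ℝ) (z : (ℝ × ℝ) × ℕ) : ℝ × ℝ := (z.1.1 - ε * η * z.2, z.1.2 + η * z.2)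

lemma c0_shr (ε η : ℝ) (z : (ℝ × ℝ) × ℕ) : (shr ε (c0 ε η z)).1 = (shr ε z.1).1 := by
  unfold shr c0; simp only; ring

lemma c0_left (ε η : ℝ) (u v : ℝ × ℝ) (i i' j : ℕ) :
    cr (c0 ε η (u, i)) (c0 ε η (v, j)) (c0 ε η (u, i')) =
      η * ((i' : ℝ) - i) * ((shr ε v).1 - (shr ε u).1) := by
  unfold cr c0 shr; simp only; ring

lemma c0_right (ε η : ℝ) (u v : ℝ × ℝ) (i j j' : ℕ) :
    cr (c0 ε η (u, i)) (c0 ε η (v, j)) (c0 ε η (v, j')) =
      η * ((j' : ℝ) - j) * ((shr ε v).1 - (shr ε u).1) := by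
  unfold cr c0 shr; simp only; ring

/-- **Blow-up**: every point `u` is replaced by a small cluster `C (u, i)`. -/
theorem geometry {Q : Finset (ℝ × ℝ)} (ε : ℝ) (M : ℕ) :
    ∃ C : (ℝ × ℝ) × ℕ → ℝ × ℝ, (Set.InjOn C ((Q ×ˢ range M : Finset _) : Set ((ℝ × ℝ) × ℕ))) ∧
      Pool.Agent.TH124.KE.GP ((Q ×ˢ range M).image C) ∧
      (∀ u ∈ Q, ∀ v ∈ Q, ∀ x ∈ Q, ∀ i < M, ∀ j < M, ∀ k < M, 0 < cr u v x →
        0 < cr (C (u, i)) (C (v, j)) (C (x, k))) ∧
      (∀ u ∈ Q, ∀ v ∈ Q, (shr ε u).1 < (shr ε v).1 → ∀ i < M, ∀ i' < M, ∀ j < M, i < i' →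
        0 < cr (C (u, i)) (C (v, j)) (C (u, i'))) ∧
      (∀ u ∈ Q, ∀ v ∈ Q, (shr ε u).1 < (shr ε v).1 → ∀ i < M, ∀ j < M, ∀ j' < M, j < j' →
        0 < cr (C (u, i)) (C (v, j)) (C (v, j'))) ∧
      (∀ u ∈ Q, ∀ v ∈ Q, (shr ε u).1 < (shr ε v).1 → ∀ i < M, ∀ j < M,
        (shr ε (C (u, i))).1 < (shr ε (C (v, j))).1) := by
  classical
  -- the size of the clusters
  have h0 : ∀ᶠ η : ℝ in 𝓝 0, ∀ u ∈ Q, ∀ v ∈ Q, ∀ x ∈ Q, ∀ i ∈ range M, ∀ j ∈ range M,
      ∀ k ∈ range M, 0 < cr u v x → 0 < cr (c0 ε η (u, i)) (c0 ε η (v, j)) (c0 ε η (x, k)) := by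
    rw [eventually_all_finset]; intro u _
    rw [eventually_all_finset]; intro v _
    rw [eventually_all_finset]; intro x _
    rw [eventually_all_finset]; intro i _
    rw [eventually_all_finset]; intro j _
    rw [eventually_all_finset]; intro k _
    by_cases h : 0 < cr u v x
    · have hc : Continuous fun η : ℝ => cr (c0 ε η (u, i)) (c0 ε η (v, j)) (c0 ε η (x, k)) := by
        unfold cr c0; fun_prop
      have hv : cr (c0 ε 0 (u, i)) (c0 ε 0 (v, j)) (c0 ε 0 (x, k)) = cr u v x := by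
        unfold cr c0; simp
      have hpos : 0 < cr (c0 ε 0 (u, i)) (c0 ε 0 (v, j)) (c0 ε 0 (x, k)) := by rw [hv]; exact h
      filter_upwards [hc.continuousAt.eventually (lt_mem_nhds hpos)] with η hη _
      exact hη
    · exact Eventually.of_forall fun _ h' => absurd h' h
  obtain ⟨η, h1, hη⟩ := ((eventually_nhdsWithin_of_eventually_nhds (s := Set.Ioi 0) h0).and
    self_mem_nhdsWithin).exists

  set I : Finset ((ℝ × ℝ) × ℕ) := Q ×ˢ range M with hI
  let κ : I ≃ Fin #I := I.equivFin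
  set P0 : Fin #I → ℝ × ℝ := fun l => c0 ε η (κ.symm l).1 with hP0
  obtain ⟨P, ⟨hP1, hP2⟩, hP⟩ := Pool.Agent.Y344.KD.exists_near P0
    ((cr_near P0).and (shr_near ε P0))
  have Pinj : Function.Injective P := fun i j h => hP.1 i j (by rw [h])
  set C : (ℝ × ℝ) × ℕ → ℝ × ℝ := fun z => if h : z ∈ I then P (κ ⟨z, h⟩) else 0 with hC
  have hCz : ∀ z (h : z ∈ I), C z = P (κ ⟨z, h⟩) := by
    intro z h
    rw [hC]
    simp only
    rw [dif_pos h]
  have hPz : ∀ z (h : z ∈ I), P0 (κ ⟨z, h⟩) = c0 ε η z := by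
    intro z h
    rw [hP0]
    simp only [Equiv.symm_apply_apply]
  have hmem : ∀ u ∈ Q, ∀ i < M, (u, i) ∈ I := by
    intro u hu i hi
    rw [hI, mem_product, mem_range]
    exact ⟨hu, hi⟩
  have himg : I.image C = univ.image P := by
    ext p
    rw [mem_image, mem_image]
    constructor
    · rintro ⟨z, hz, rfl⟩
      exact ⟨κ ⟨z, hz⟩, mem_univ _, (hCz z hz).symm⟩
    · rintro ⟨l, -, rfl⟩
      refine ⟨(κ.symm l).1, (κ.symm l).2, ?_⟩
      rw [hCz _ (κ.symm l).2]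
      simp
  refine ⟨C, ?_, ?_, ?_, ?_, ?_, ?_⟩
  · intro z hz w hw h
    rw [hCz z hz, hCz w hw] at h
    have := κ.injective (Pinj h)
    exact congrArg Subtype.val this
  · rw [himg]
    exact Pool.Agent.Y344.KD.ke_gp hP
  · intro u hu v hv x hx i hi j hj k hk h
    rw [hCz _ (hmem u hu i hi), hCz _ (hmem v hv j hj), hCz _ (hmem x hx k hk)]
    apply hP1
    rw [hPz, hPz, hPz]
    exact h1 u hu v hv x hx i (mem_range.mpr hi) j (mem_range.mpr hj) k (mem_range.mpr hk) h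
  · intro u hu v hv huv i hi i' hi' j hj hii
    rw [hCz _ (hmem u hu i hi), hCz _ (hmem v hv j hj), hCz _ (hmem u hu i' hi')]
    apply hP1
    rw [hPz, hPz, hPz, c0_left]
    have e1 : (0 : ℝ) < (i' : ℝ) - i := by
      have : (i : ℝ) < i' := by exact_mod_cast hii
      linarith
    have e2 : 0 < (shr ε v).1 - (shr ε u).1 := by linarith
    positivity
  · intro u hu v hv huv i hi j hj j' hj' hjj
    rw [hCz _ (hmem u hu i hi), hCz _ (hmem v hv j hj), hCz _ (hmem v hv j' hj')]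
    apply hP1
    rw [hPz, hPz, hPz, c0_right]
    have e1 : (0 : ℝ) < (j' : ℝ) - j := by
      have : (j : ℝ) < j' := by exact_mod_cast hjj
      linarith
    have e2 : 0 < (shr ε v).1 - (shr ε u).1 := by linarith
    positivity
  · intro u hu v hv huv i hi j hj
    rw [hCz _ (hmem u hu i hi), hCz _ (hmem v hv j hj)]
    apply hP2
    rw [hPz, hPz, c0_shr, c0_shr]
    exact huv

end Pool.Agent.U463.HD
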