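import Pool.Agent.TH124.KE.Base

/-!
# Three clusters without a common transversal line
-/

set_option autoImplicit false

namespace Pool.Agent.U463.HD

open Finset Filter Topology Pool.Agent.TH124.KE

/-- the `(k+1)`-st smallest height -/
noncomputable def stat (L : Finset (ℝ × ℝ)) (k : ℕ) (hk : (L.powersetCard (k + 1)).Nonempty)
    (σ : ℝ) : ℝ :=
  (L.powersetCard (k + 1)).inf' hk (fun S => if h : S.Nonempty then S.sup' h (hh σ) else 0)

lemma continuous_hh (p : ℝ × ℝ) : Continuous fun σ : ℝ => hh σ p := by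
  unfold hh; fun_prop

lemma continuous_stat {L : Finset (ℝ × ℝ)} {k : ℕ} (hk : (L.powersetCard (k + 1)).Nonempty) :
    Continuous (stat L k hk) := by
  unfold stat
  apply Continuous.finset_inf'_apply
  intro S _
  by_cases h : S.Nonempty
  · simp only [h, dif_pos]
    apply Continuous.finset_sup'_apply
    intro p _
    exact continuous_hh p
  · simp only [h, dif_neg, not_false_eq_true]
    exact continuous_const

lemma stat_spec {L : Finset (ℝ × ℝ)} {k : ℕ} (hk : (L.powersetCard (k + 1)).Nonempty) (σ : ℝ) :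
    k < #{p ∈ L | hh σ p ≤ stat L k hk σ} ∧ #{p ∈ L | hh σ p < stat L k hk σ} ≤ k ∧
      ∃ p ∈ L, hh σ p = stat L k hk σ := by
  have hne : ∀ S ∈ L.powersetCard (k + 1), S.Nonempty := by
    intro S hS
    rw [mem_powersetCard] at hS
    exact card_pos.mp (by omega)
  refine ⟨?_, ?_, ?_⟩
  · obtain ⟨S, hS, hS2⟩ := (L.powersetCard (k + 1)).exists_mem_eq_inf' hk
      (fun S => if h : S.Nonempty then S.sup' h (hh σ) else 0)
    have h1 : stat L k hk σ = S.sup' (hne S hS) (hh σ) := by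
      unfold stat
      rw [hS2, dif_pos (hne S hS)]
    rw [h1]
    rw [mem_powersetCard] at hS
    have h2 : S ⊆ L.filter (fun p => hh σ p ≤ S.sup' (hne S (mem_powersetCard.mpr hS)) (hh σ)) := by
      intro p hp
      rw [mem_filter]
      exact ⟨hS.1 hp, le_sup' (hh σ) hp⟩
    have := card_le_card h2
    omega
  · by_contra hcon
    push Not at hcon
    obtain ⟨S, hS1, hS2⟩ := exists_subset_card_eq (Nat.succ_le_iff.mpr hcon)
    have hS3 : S ∈ L.powersetCard (k + 1) := by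
      rw [mem_powersetCard]
      exact ⟨hS1.trans (filter_subset _ _), hS2⟩
    have h1 : stat L k hk σ ≤ S.sup' (hne S hS3) (hh σ) := by
      unfold stat
      have := inf'_le (fun S => if h : S.Nonempty then S.sup' h (hh σ) else 0) hS3
      simp only [dif_pos (hne S hS3)] at this
      exact this
    have h2 : S.sup' (hne S hS3) (hh σ) < stat L k hk σ := by
      rw [sup'_lt_iff]
      intro p hp
      exact (mem_filter.mp (hS1 hp)).2
    linarith
  · obtain ⟨S, hS, hS2⟩ := (L.powersetCard (k + 1)).exists_mem_eq_inf' hk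
      (fun S => if h : S.Nonempty then S.sup' h (hh σ) else 0)
    obtain ⟨p, hp, hp2⟩ := S.exists_mem_eq_sup' (hne S hS) (hh σ)
    refine ⟨p, (mem_powersetCard.mp hS).1 hp, ?_⟩
    unfold stat
    rw [hS2, dif_pos (hne S hS), hp2]

/-- a line splitting two separated sets in given proportions -/
lemma ham {L R : Finset (ℝ × ℝ)} (hLR : ∀ p ∈ L, ∀ q ∈ R, p.1 < q.1) {k l : ℕ} (hk : k < #L)
    (hl : l < #R) : ∃ σ c : ℝ, (k < #{p ∈ L | hh σ p ≤ c} ∧ #{p ∈ L | hh σ p < c} ≤ k) ∧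
      (l < #{p ∈ R | hh σ p ≤ c} ∧ #{p ∈ R | hh σ p < c} ≤ l) := by
  have hk' : (L.powersetCard (k + 1)).Nonempty := powersetCard_nonempty.mpr hk
  have hl' : (R.powersetCard (l + 1)).Nonempty := powersetCard_nonempty.mpr hl
  set f : ℝ → ℝ := fun σ => stat L k hk' σ - stat R l hl' σ with hf
  have hfc : Continuous f := (continuous_stat hk').sub (continuous_stat hl')
  obtain ⟨σ₁, h1⟩ : ∃ σ₁, 0 ≤ f σ₁ := by
    have h : ∀ᶠ σ : ℝ in atTop, ∀ p ∈ L, ∀ q ∈ R, hh σ q ≤ hh σ p := by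
      rw [eventually_all_finset]; intro p hp
      rw [eventually_all_finset]; intro q hq
      filter_upwards [eventually_ge_atTop ((q.2 - p.2) / (q.1 - p.1))] with σ hσ
      have := hLR p hp q hq
      rw [div_le_iff₀ (by linarith)] at hσ
      unfold hh
      nlinarith
    obtain ⟨σ, hσ⟩ := h.exists
    obtain ⟨p, hp, hp2⟩ := (stat_spec hk' σ).2.2
    obtain ⟨q, hq, hq2⟩ := (stat_spec hl' σ).2.2
    refine ⟨σ, ?_⟩
    rw [hf]
    simp only
    rw [← hp2, ← hq2]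
    linarith [hσ p hp q hq]
  obtain ⟨σ₂, h2⟩ : ∃ σ₂, f σ₂ ≤ 0 := by
    have h : ∀ᶠ σ : ℝ in atBot, ∀ p ∈ L, ∀ q ∈ R, hh σ p ≤ hh σ q := by
      rw [eventually_all_finset]; intro p hp
      rw [eventually_all_finset]; intro q hq
      filter_upwards [eventually_le_atBot ((q.2 - p.2) / (q.1 - p.1))] with σ hσ
      have := hLR p hp q hq
      rw [le_div_iff₀ (by linarith)] at hσ
      unfold hh
      nlinarith
    obtain ⟨σ, hσ⟩ := h.exists
    obtain ⟨p, hp, hp2⟩ := (stat_spec hk' σ).2.2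
    obtain ⟨q, hq, hq2⟩ := (stat_spec hl' σ).2.2
    refine ⟨σ, ?_⟩
    rw [hf]
    simp only
    rw [← hp2, ← hq2]
    linarith [hσ p hp q hq]
  obtain ⟨σ, hσ⟩ := mem_range_of_exists_le_of_exists_ge hfc ⟨σ₂, h2⟩ ⟨σ₁, h1⟩
  have h3 : stat L k hk' σ = stat R l hl' σ := by
    rw [hf] at hσ
    simp only at hσ
    linarith
  refine ⟨σ, stat L k hk' σ, ⟨(stat_spec hk' σ).1, (stat_spec hk' σ).2.1⟩, ?_⟩
  rw [h3]
  exact ⟨(stat_spec hl' σ).1, (stat_spec hl' σ).2.1⟩

/-- `A` lies strictly on one side of the line `y = σ x + c` -/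
def Hom (A : Finset (ℝ × ℝ)) (σ c : ℝ) : Prop := (∀ r ∈ A, hh σ r < c) ∨ (∀ r ∈ A, c < hh σ r)

lemma Hom.mono {A B : Finset (ℝ × ℝ)} {σ c : ℝ} (h : Hom B σ c) (hAB : A ⊆ B) : Hom A σ c := by
  rcases h with h | h
  · exact Or.inl fun r hr => h r (hAB hr)
  · exact Or.inr fun r hr => h r (hAB hr)

lemma no_trans {A B C : Finset (ℝ × ℝ)} (h1 : ∀ p ∈ A, ∀ m ∈ B, p.1 < m.1)
    (h2 : ∀ m ∈ B, ∀ q ∈ C, m.1 < q.1) {σ₀ c₀ : ℝ}
    (h : ((∀ p ∈ A, hh σ₀ p < c₀) ∧ (∀ m ∈ B, c₀ < hh σ₀ m) ∧ (∀ q ∈ C, hh σ₀ q < c₀)) ∨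
      ((∀ p ∈ A, c₀ < hh σ₀ p) ∧ (∀ m ∈ B, hh σ₀ m < c₀) ∧ (∀ q ∈ C, c₀ < hh σ₀ q))) (σ c : ℝ) :
    Hom A σ c ∨ Hom B σ c ∨ Hom C σ c := by
  by_contra hcon
  unfold Hom at hcon
  push Not at hcon
  obtain ⟨⟨⟨p, hp, hp1⟩, ⟨p', hp', hp1'⟩⟩, ⟨⟨m, hm, hm1⟩, ⟨m', hm', hm1'⟩⟩,
    ⟨⟨q, hq, hq1⟩, ⟨q', hq', hq1'⟩⟩⟩ := hcon
  rcases h with ⟨a1, a2, a3⟩ | ⟨a1, a2, a3⟩
  · have b1 := a1 p hp
    have b2 := a2 m' hm'
    have b3 := a3 q hq
    have b4 := h1 p hp m' hm'
    have b5 := h2 m' hm' q hq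
    unfold hh at *
    rcases le_total 0 (σ₀ - σ) with h0 | h0
    · nlinarith
    · nlinarith
  · have b1 := a1 p' hp'
    have b2 := a2 m hm
    have b3 := a3 q' hq'
    have b4 := h1 p' hp' m hm
    have b5 := h2 m hm q' hq'
    unfold hh at *
    rcases le_total 0 (σ₀ - σ) with h0 | h0
    · nlinarith
    · nlinarith

lemma lft_lt {Q : Finset (ℝ × ℝ)} {p q : ℝ × ℝ} (hp : p ∈ Q) (h : p.1 < q.1) :
    lft Q p < lft Q q := by
  unfold lft
  apply card_lt_card
  rw [ssubset_iff_of_subset]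
  · exact ⟨p, mem_filter.mpr ⟨hp, h⟩, fun h2 => lt_irrefl _ (mem_filter.mp h2).2⟩
  · intro r hr
    rw [mem_filter] at hr ⊢
    exact ⟨hr.1, hr.2.trans h⟩

lemma lft_card {Q : Finset (ℝ × ℝ)} (hQ : GP Q) (I : Finset ℕ) (hI : I ⊆ range #Q) :
    #{p ∈ Q | lft Q p ∈ I} = #I := by
  classical
  have hinj : Set.InjOn (lft Q) Q := by
    intro p hp q hq h
    by_contra hne
    rcases lt_or_gt_of_ne (hQ.ne1 hp hq hne) with h1 | h1
    · exact absurd h (lft_lt hp h1).ne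
    · exact absurd h (lft_lt hq h1).ne'
  have himg : Q.image (lft Q) = range #Q := by
    apply eq_of_subset_of_card_le
    · intro k hk
      obtain ⟨p, hp, rfl⟩ := mem_image.mp hk
      rw [mem_range]
      unfold lft
      apply card_lt_card
      rw [ssubset_iff_of_subset (filter_subset _ _)]
      exact ⟨p, hp, fun h2 => lt_irrefl _ (mem_filter.mp h2).2⟩
    · rw [card_range, card_image_of_injOn hinj]
  have h1 : ({p ∈ Q | lft Q p ∈ I} : Finset (ℝ × ℝ)).image (lft Q) = I := by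
    ext k
    rw [mem_image]
    constructor
    · rintro ⟨p, hp, rfl⟩
      exact (mem_filter.mp hp).2
    · intro hk
      have : k ∈ Q.image (lft Q) := by rw [himg]; exact hI hk
      obtain ⟨p, hp, rfl⟩ := mem_image.mp this
      exact ⟨p, mem_filter.mpr ⟨hp, hk⟩, rfl⟩
  have h2 : #(({p ∈ Q | lft Q p ∈ I} : Finset (ℝ × ℝ)).image (lft Q)) = #{p ∈ Q | lft Q p ∈ I} := by
    apply card_image_of_injOn
    intro p hp q hq h
    exact hinj (mem_filter.mp (mem_coe.mp hp)).1 (mem_filter.mp (mem_coe.mp hq)).1 h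
  rw [← h2, h1]

lemma on_line {Q : Finset (ℝ × ℝ)} (hQ : GP Q) (σ c : ℝ) : #{p ∈ Q | hh σ p = c} ≤ 2 := by
  by_contra hcon
  push Not at hcon
  obtain ⟨p, q, r, hp, hq, hr, hpq, hpr, hqr⟩ := two_lt_card_iff.mp hcon
  rw [mem_filter] at hp hq hr
  apply hQ.col p hp.1 q hq.1 r hr.1 hpq hpr hqr
  rw [(hh_eq (hQ.ne1 hp.1 hq.1 hpq) σ).mp (hq.2.trans hp.2.symm),
    (hh_eq (hQ.ne1 hp.1 hr.1 hpr) σ).mp (hr.2.trans hp.2.symm)]

lemma split {S : Finset (ℝ × ℝ)} (σ c : ℝ) :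
    #{p ∈ S | hh σ p < c} + #{p ∈ S | hh σ p = c} = #{p ∈ S | hh σ p ≤ c} ∧
    #{p ∈ S | hh σ p ≤ c} + #{p ∈ S | c < hh σ p} = #S := by
  classical
  constructor
  · rw [← card_union_of_disjoint]
    · congr 1
      ext p
      simp only [mem_union, mem_filter]
      constructor
      · rintro (h | h)
        · exact ⟨h.1, h.2.le⟩
        · exact ⟨h.1, h.2.le⟩
      · rintro ⟨h1, h2⟩
        rcases lt_or_eq_of_le h2 with h | h
        · exact Or.inl ⟨h1, h⟩
        · exact Or.inr ⟨h1, h⟩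
    · rw [disjoint_left]
      intro p hp hp2
      rw [mem_filter] at hp hp2
      exact hp.2.ne hp2.2
  · rw [← card_filter_add_card_filter_not (s := S) (fun p => hh σ p ≤ c)]
    congr 2
    ext p
    simp only [mem_filter, not_le]

/-- **Three clusters**: a set of at least `6 t + 9` points contains three disjoint sets of `t`
points such that every non-vertical line misses the convex hull of one of them. -/
theorem clusters {Q : Finset (ℝ × ℝ)} (hQ : GP Q) (t : ℕ) (ht : 6 * t + 9 ≤ #Q) :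
    ∃ A : Fin 3 → Finset (ℝ × ℝ), (∀ i, A i ⊆ Q ∧ #(A i) = t) ∧
      (∀ i j, i ≠ j → Disjoint (A i) (A j)) ∧ ∀ σ c : ℝ, ∃ i, Hom (A i) σ c := by
  classical
  set a := 2 * t + 3 with ha
  set L := {p ∈ Q | lft Q p ∈ Ico 0 a} with hL
  set M := {p ∈ Q | lft Q p ∈ Ico a (2 * a)} with hM
  set R := {p ∈ Q | lft Q p ∈ Ico (2 * a) (3 * a)} with hR
  have cL : #L = a := by
    rw [hL, lft_card hQ]
    · simp
    · intro k hk; rw [mem_Ico] at hk; rw [mem_range]; omega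
  have cM : #M = a := by
    rw [hM, lft_card hQ]
    · simp; omega
    · intro k hk; rw [mem_Ico] at hk; rw [mem_range]; omega
  have cR : #R = a := by
    rw [hR, lft_card hQ]
    · simp; omega
    · intro k hk; rw [mem_Ico] at hk; rw [mem_range]; omega
  have sub : ∀ p q : ℝ × ℝ, p ∈ Q → q ∈ Q → lft Q p < lft Q q → p.1 < q.1 := by
    intro p q hp hq h
    by_contra hcon
    push Not at hcon
    rcases lt_or_eq_of_le hcon with h1 | h1
    · exact absurd (lft_lt hq h1) (not_lt.mpr h.le)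
    · rw [hQ.inj q hq p hp h1] at h
      exact lt_irrefl _ h
  have hLM : ∀ p ∈ L, ∀ q ∈ M, p.1 < q.1 := by
    intro p hp q hq
    rw [hL, mem_filter, mem_Ico] at hp
    rw [hM, mem_filter, mem_Ico] at hq
    exact sub p q hp.1 hq.1 (by omega)
  have hMR : ∀ p ∈ M, ∀ q ∈ R, p.1 < q.1 := by
    intro p hp q hq
    rw [hM, mem_filter, mem_Ico] at hp
    rw [hR, mem_filter, mem_Ico] at hq
    exact sub p q hp.1 hq.1 (by omega)
  have hLR : ∀ p ∈ L, ∀ q ∈ R, p.1 < q.1 := by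
    intro p hp q hq
    rw [hL, mem_filter, mem_Ico] at hp
    rw [hR, mem_filter, mem_Ico] at hq
    exact sub p q hp.1 hq.1 (by omega)
  obtain ⟨σ, c, ⟨h1, h2⟩, ⟨h3, h4⟩⟩ := ham hLR (k := t + 1) (l := t + 1) (by omega) (by omega)
  have o : ∀ S ⊆ Q, #{p ∈ S | hh σ p = c} ≤ 2 := by
    intro S hS
    exact (card_le_card (filter_subset_filter _ hS)).trans (on_line hQ σ c)
  have oL := o L (filter_subset _ _)
  have oM := o M (filter_subset _ _)
  have oR := o R (filter_subset _ _)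
  obtain ⟨sL, sL'⟩ := split (S := L) σ c
  obtain ⟨sM, sM'⟩ := split (S := M) σ c
  obtain ⟨sR, sR'⟩ := split (S := R) σ c
  have hchoose : ∃ A B C : Finset (ℝ × ℝ), A ⊆ L ∧ B ⊆ M ∧ C ⊆ R ∧ #A = t ∧ #B = t ∧ #C = t ∧
      (((∀ p ∈ A, hh σ p < c) ∧ (∀ m ∈ B, c < hh σ m) ∧ (∀ q ∈ C, hh σ q < c)) ∨
      ((∀ p ∈ A, c < hh σ p) ∧ (∀ m ∈ B, hh σ m < c) ∧ (∀ q ∈ C, c < hh σ q))) := by
    by_cases hm : t ≤ #{p ∈ M | c < hh σ p}
    · obtain ⟨A, hA1, hA2⟩ := exists_subset_card_eq (s := {p ∈ L | hh σ p < c}) (n := t) (by omega)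
      obtain ⟨B, hB1, hB2⟩ := exists_subset_card_eq hm
      obtain ⟨C, hC1, hC2⟩ := exists_subset_card_eq (s := {p ∈ R | hh σ p < c}) (n := t) (by omega)
      refine ⟨A, B, C, hA1.trans (filter_subset _ _), hB1.trans (filter_subset _ _),
        hC1.trans (filter_subset _ _), hA2, hB2, hC2, Or.inl ⟨?_, ?_, ?_⟩⟩
      · exact fun p hp => (mem_filter.mp (hA1 hp)).2
      · exact fun p hp => (mem_filter.mp (hB1 hp)).2
      · exact fun p hp => (mem_filter.mp (hC1 hp)).2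
    · obtain ⟨A, hA1, hA2⟩ := exists_subset_card_eq (s := {p ∈ L | c < hh σ p}) (n := t) (by omega)
      obtain ⟨B, hB1, hB2⟩ := exists_subset_card_eq (s := {p ∈ M | hh σ p < c}) (n := t) (by omega)
      obtain ⟨C, hC1, hC2⟩ := exists_subset_card_eq (s := {p ∈ R | c < hh σ p}) (n := t) (by omega)
      refine ⟨A, B, C, hA1.trans (filter_subset _ _), hB1.trans (filter_subset _ _),
        hC1.trans (filter_subset _ _), hA2, hB2, hC2, Or.inr ⟨?_, ?_, ?_⟩⟩
      · exact fun p hp => (mem_filter.mp (hA1 hp)).2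
      · exact fun p hp => (mem_filter.mp (hB1 hp)).2
      · exact fun p hp => (mem_filter.mp (hC1 hp)).2
  obtain ⟨A, B, C, hA, hB, hC, cA, cB, cC, hside⟩ := hchoose
  have dAB : Disjoint A B := by
    rw [disjoint_left]
    intro p hp hp2
    exact lt_irrefl _ (hLM p (hA hp) p (hB hp2))
  have dBC : Disjoint B C := by
    rw [disjoint_left]
    intro p hp hp2
    exact lt_irrefl _ (hMR p (hB hp) p (hC hp2))
  have dAC : Disjoint A C := by
    rw [disjoint_left]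
    intro p hp hp2
    exact lt_irrefl _ (hLR p (hA hp) p (hC hp2))
  refine ⟨![A, B, C], ?_, ?_, ?_⟩
  · intro i
    fin_cases i
    · exact ⟨hA.trans (filter_subset _ _), cA⟩
    · exact ⟨hB.trans (filter_subset _ _), cB⟩
    · exact ⟨hC.trans (filter_subset _ _), cC⟩
  · intro i j hij
    fin_cases i <;> fin_cases j
    · exact absurd rfl hij
    · exact dAB
    · exact dAC
    · exact dAB.symm
    · exact absurd rfl hij
    · exact dBC
    · exact dAC.symm
    · exact dBC.symm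
    · exact absurd rfl hij
  · intro σ' c'
    rcases no_trans (fun p hp m hm => hLM p (hA hp) m (hB hm))
      (fun m hm q hq => hMR m (hB hm) q (hC hq)) hside σ' c' with h | h | h
    · exact ⟨0, h⟩
    · exact ⟨1, h⟩
    · exact ⟨2, h⟩

end Pool.Agent.U463.HD
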