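import Pool.Agent.U463.HD.Ham
import Pool.Agent.U463.HD.Count
import Pool.Agent.Y344.KD.Win
import Pool.Agent.Y344.KD.Pert
import Pool.Agent.Y429.HalvFew

/-!
# Halving lines after the deletion of few points
-/

set_option autoImplicit false

namespace Pool.Agent.U463.HD

open Finset Pool.Agent.TH124.KE

open Pool.Agent.Results.MP_a08d0a_co.SmoothedLevel (Simple)

/-- **the discrete form** -/
theorem discrete {Q : Finset (ℝ × ℝ)} (hQ : GP Q) {t : ℕ} (ht : 2 ≤ t) (htQ : 6 * t + 9 ≤ #Q) :
    ∃ R ⊆ Q, Even #R ∧ #Q + 3 ≤ #R + 3 * t ∧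
      (#(kes R (#R / 2 - 1)) : ℝ) * (t / 2 : ℕ) ≤
        18 * #Q * ((#Q : ℝ) ^ (1 / 3 : ℝ) * ((3 * t + 1 : ℕ) : ℝ) ^ (2 / 3 : ℝ)) := by
  classical
  set n := #Q with hn
  let e : Fin n ≃ Q := Q.equivFin.symm
  set q : Fin n → ℝ × ℝ := fun i => (e i).1 with hq
  have qmem : ∀ i, q i ∈ Q := fun i => (e i).2
  have qinj : Function.Injective q := by
    intro i j h
    exact e.injective (Subtype.ext h)
  have qsurj : ∀ p ∈ Q, ∃ i, q i = p := by
    intro p hp
    exact ⟨e.symm ⟨p, hp⟩, by rw [hq]; simp⟩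
  have hS : Simple (fun l => (q l).1) (fun l => (q l).2) := by
    refine ⟨?_, ?_⟩
    · intro i j hij h1 h2
      exact hij (qinj (Prod.ext h1 h2))
    · rintro i j l hij hil hjl ⟨x, h1, h2⟩
      have n1 : q i ≠ q j := fun h => hij (qinj h)
      have n2 : q i ≠ q l := fun h => hil (qinj h)
      have n3 : q j ≠ q l := fun h => hjl (qinj h)
      apply hQ.col _ (qmem i) _ (qmem j) _ (qmem l) n1 n2 n3
      unfold Pool.Agent.H189R2.Lev.ht at h1 h2
      rw [(hh_eq (hQ.ne1 (qmem i) (qmem j) n1) (-x)).mp (by unfold hh; linarith),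
        (hh_eq (hQ.ne1 (qmem i) (qmem l) n2) (-x)).mp (by unfold hh; linarith)]
  obtain ⟨P, hP, hPq⟩ := Pool.Agent.Y344.KD.exists_GP hS
  have hlow : ∀ i j, (q j).1 < (q i).1 → ∀ l, (P l ∈ Pool.Agent.H189R2.Iid.low (P i) (P j) ↔
      hh (sl (q i) (q j)) (q l) < hh (sl (q i) (q j)) (q i)) := by
    intro i j hij l
    rw [(hPq i j hij).2 l]
    have h1 : ∀ m, Pool.Agent.H189R2.Lev.ht (fun l => (q l).1) (fun l => (q l).2) m
        (Pool.Agent.H189R2.Lev.cr (fun l => (q l).1) (fun l => (q l).2) i j) =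
        hh (sl (q i) (q j)) (q m) := by
      intro m
      unfold Pool.Agent.H189R2.Lev.ht Pool.Agent.H189R2.Lev.cr hh sl
      have h2 : (q i).1 - (q j).1 ≠ 0 := by linarith
      have h3 : (q j).1 - (q i).1 ≠ 0 := by
        intro h; apply h2; linarith
      field_simp
      ring
    rw [h1, h1]
  have hT : ∀ f ∈ Pool.Agent.H189R2.Iid.T P, (q f.2).1 < (q f.1).1 := by
    intro f hf
    rw [Pool.Agent.H189R2.Iid.mem_T] at hf
    rcases lt_trichotomy (q f.2).1 (q f.1).1 with h | h | h
    · exact h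
    · have := qinj (hQ.inj _ (qmem _) _ (qmem _) h)
      rw [this] at hf
      exact absurd hf (lt_irrefl _)
    · exact absurd (hPq f.2 f.1 h).1 (not_lt.mpr hf.le)
  obtain ⟨A', hA1, hA2, hA3⟩ := clusters hQ t htQ
  set A : Fin 3 → Finset (Fin n) := fun c => univ.filter (fun i => q i ∈ A' c) with hA
  have cA : ∀ c, #(A c) = t := by
    intro c
    rw [← (hA1 c).2]
    have : (A c).image q = A' c := by
      ext p
      rw [mem_image]
      constructor
      · rintro ⟨i, hi, rfl⟩
        exact (mem_filter.mp hi).2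
      · intro hp
        obtain ⟨i, rfl⟩ := qsurj p ((hA1 c).1 hp)
        exact ⟨i, mem_filter.mpr ⟨mem_univ _, hp⟩, rfl⟩
    rw [← this, card_image_of_injective _ qinj]
  have hD : ∀ c : Fin 3, ∀ s : ℕ, ∃ F : Finset (Fin n), s < t → F ⊆ A c ∧ #F = s := by
    intro c s
    by_cases h : s < t
    · obtain ⟨F, h1, h2⟩ := exists_subset_card_eq (s := A c) (n := s) (by rw [cA]; omega)
      exact ⟨F, fun _ => ⟨h1, h2⟩⟩
    · exact ⟨∅, fun h' => absurd h' h⟩
  choose D hD using hD
  have hCh : Chains A D t := by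
    refine ⟨fun c s hs => (hD c s hs).1, fun c s hs => (hD c s hs).2, ?_⟩
    intro c c' hcc
    rw [disjoint_left]
    intro i hi hi'
    exact disjoint_left.mp (hA2 c c' hcc) (mem_filter.mp hi).2 (mem_filter.mp hi').2
  set B : Fin n × Fin n → Finset (Fin n) := fun f =>
    univ.filter (fun l => P l ∈ Pool.Agent.H189R2.Iid.low (P f.1) (P f.2)) with hB
  have hom : ∀ f ∈ Pool.Agent.H189R2.Iid.T P, ∃ c, A c ⊆ B f ∨ Disjoint (A c) (B f) := by
    intro f hf
    have hf' := hT f hf
    obtain ⟨c, hc⟩ := hA3 (sl (q f.1) (q f.2)) (hh (sl (q f.1) (q f.2)) (q f.1))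
    refine ⟨c, ?_⟩
    rcases hc with hc | hc
    · left
      intro l hl
      rw [hB]
      simp only [mem_filter, mem_univ, true_and]
      rw [hlow _ _ hf']
      exact hc _ (mem_filter.mp hl).2
    · right
      rw [disjoint_left]
      intro l hl hl2
      rw [hB] at hl2
      simp only [mem_filter, mem_univ, true_and] at hl2
      rw [hlow _ _ hf'] at hl2
      exact absurd hl2 (not_lt.mpr (hc _ (mem_filter.mp hl).2).le)
  obtain ⟨s, hs, hev, hle⟩ := hCh.exists_good ht (Pool.Agent.H189R2.Iid.T P) B hom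
  have hcard := hCh.card_rem hs
  rw [Fintype.card_fin] at hcard hle
  have hsc := mem_cube.mp hs
  -- the window
  set W : Finset ℕ := (range n).filter (fun k => 2 * k + 2 ≤ n + 3 * t ∧ n ≤ 2 * k + 2 + 3 * t)
    with hW
  have cW : #W ≤ 3 * t + 1 := by
    have h1 : W ⊆ Icc ((n - (2 + 3 * t) + 1) / 2) ((n - (2 + 3 * t) + 1) / 2 + 3 * t) := by
      intro k hk
      rw [hW, mem_filter] at hk
      rw [mem_Icc]
      omega
    have h2 := card_le_card h1
    rw [Nat.card_Icc] at h2
    omega
  have hwin := Pool.Agent.Y344.KD.window hP W (K := n - 1) (by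
    intro k hk
    rw [hW, mem_filter, mem_range] at hk
    omega)
  have hEW : #{f ∈ Pool.Agent.H189R2.Iid.T P | 2 * #(B f) + 2 ≤ n + 3 * t ∧
      n ≤ 2 * #(B f) + 2 + 3 * t} ≤ #(Pool.Agent.Y344.KD.EW P W) := by
    apply card_le_card
    intro f hf
    rw [mem_filter] at hf
    unfold Pool.Agent.Y344.KD.EW
    rw [mem_filter]
    refine ⟨hf.1, ?_⟩
    have h1 : Pool.Agent.H189R2.Iid.lev P f = #(B f) := by
      unfold Pool.Agent.H189R2.Iid.lev
      rw [hB]
    rw [h1, hW, mem_filter, mem_range]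
    refine ⟨?_, hf.2⟩
    have h2 : B f ⊂ univ := by
      rw [ssubset_univ_iff]
      intro h3
      have : f.1 ∈ B f := by rw [h3]; exact mem_univ _
      rw [hB] at this
      simp only [mem_filter, mem_univ, true_and] at this
      exact Pool.Agent.H189R2.Iid.fst_notMem_low _ _ this
    have := card_lt_card h2
    rw [card_univ, Fintype.card_fin] at this
    exact this
  refine ⟨(rem D s).image q, ?_, ?_, ?_, ?_⟩
  · intro p hp
    obtain ⟨i, -, rfl⟩ := mem_image.mp hp
    exact qmem i
  · rw [card_image_of_injective _ qinj]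
    exact hev
  · rw [card_image_of_injective _ qinj]
    omega
  · have hk : #(kes ((rem D s).image q) (#((rem D s).image q) / 2 - 1)) ≤
        #{f ∈ Pool.Agent.H189R2.Iid.T P | Bal D (B f) s} := by
      rw [card_image_of_injective _ qinj]
      have hsub : kes ((rem D s).image q) (#(rem D s) / 2 - 1) ⊆
          ({f ∈ Pool.Agent.H189R2.Iid.T P | Bal D (B f) s}).image (fun f => (q f.2, q f.1)) := by
        rintro ⟨p, r⟩ hpr
        rw [mem_kes] at hpr
        obtain ⟨h1, h2, h3, h4⟩ := hpr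
        simp only at h1 h2 h3 h4
        obtain ⟨j, hj, rfl⟩ := mem_image.mp h1
        obtain ⟨i, hi, rfl⟩ := mem_image.mp h2
        rw [mem_image]
        refine ⟨(i, j), ?_, rfl⟩
        rw [mem_filter]
        refine ⟨?_, ?_⟩
        · rw [Pool.Agent.H189R2.Iid.mem_T]
          exact (hPq i j h3).1
        · have h5 : #(B (i, j) ∩ rem D s) = #(rem D s) / 2 - 1 := by
            rw [← h4]
            unfold bel
            rw [filter_image, card_image_of_injective _ qinj]
            congr 1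
            ext l
            simp only [hB, mem_inter, mem_filter, mem_univ, true_and]
            rw [hlow i j h3 l, sl_comm (q i) (q j), ← hh_sl (ne_of_lt h3)]
            tauto
          have h6 : 2 ≤ #(rem D s) := by
            have : 1 < #(rem D s) := one_lt_card.mpr ⟨i, hi, j, hj, by
              rintro rfl; exact lt_irrefl _ h3⟩
            omega
          have h7 := Nat.even_iff.mp hev
          unfold Bal
          rw [h5]
          omega
      exact (card_le_card hsub).trans card_image_le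
    have h1 : #(kes ((rem D s).image q) (#((rem D s).image q) / 2 - 1)) * (t / 2) ≤
        #(Pool.Agent.Y344.KD.EW P W) :=
      (Nat.mul_le_mul_right _ hk).trans (hle.trans hEW)
    have h2 : (#(kes ((rem D s).image q) (#((rem D s).image q) / 2 - 1)) : ℝ) * (t / 2 : ℕ) ≤
        (#(Pool.Agent.Y344.KD.EW P W) : ℝ) := by exact_mod_cast h1
    refine h2.trans (hwin.trans ?_)
    have h3 : (((n - 1 : ℕ) : ℝ) + 1) = n := by
      have : 1 ≤ n := by omega
      push_cast [this]
      ring
    rw [h3]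
    gcongr

end Pool.Agent.U463.HD
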